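import Pool.Agent.W54.AD.Mean

/-! # The counting problem: primes `p ≡ 3 mod 4` for which `2 m ^ r` has order `p - 1` or
`(p - 1) / 2` -/

set_option autoImplicit false
set_option linter.unusedSectionVars false

namespace Pool.Agent.W54.AD

open NumberField Filter Topology Finset
open Pool.Agent.W401.Cheb
open Pool.Agent.H386R2.Artin (PP Good hL LC_pos artinL artinC artinLim)
open Pool.Agent.H771R4.SE (Dat OddP adm_iff_oddP err_nn hL_nn)
open Pool.Agent.H771R4.AQ (Adm)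
open Pool.Agent.H981R3.LN (ql Sk mem_Sk mem_PP Sk_dvd Sk_prime prod_ql_pos)
open Pool.Agent.W171.LG
open Pool.Agent.W171.EP (sG card_PP mem_PP')

/-- the odd prime factors -/
def od (r : ℕ) : Finset ℕ := r.primeFactors.erase 2

lemma od_prime {r l : ℕ} (h : l ∈ od r) : l.Prime :=
  (Nat.mem_primeFactors.1 (mem_of_mem_erase h)).1

lemma od_two (r : ℕ) : 2 ∉ od r := notMem_erase 2 _

/-- the admissibility condition in terms of power residue conditions -/
lemma oddP_iff {p : ℕ} [Fact p.Prime] (r : ℕ) (hr : 0 < r) (hp2 : p ≠ 2)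
    (hGF : GF Q0 Set.univ p) : ∃ m : ZMod p, m ≠ 0 ∧ ∀ a : ZMod p, a ≠ 0 →
      (OddP p (2 * a ^ r) ↔ gd Q0 Set.univ (Subgroup.zpowers u2) 1 (od r) p ∧
        ∀ l ∈ (Tp (⊥ : Subgroup ℚˣ) 1 (od r) p).erase 2, (m * a) ^ ((p - 1) / ql 1 l) ≠ 1) := by
  classical
  have hp1 : p - 1 ≠ 0 := (LC_pos (p := p)).ne'
  obtain ⟨m, hm, h1⟩ := pow_two_T (p := p) r hr hp2
  refine ⟨m, hm, fun a ha => ?_⟩
  have hne : (2 : ZMod p) * a ^ r ≠ 0 := mul_ne_zero (two_ne hp2) (pow_ne_zero _ ha)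
  unfold OddP
  constructor
  · rintro ⟨-, h⟩
    refine ⟨⟨hGF, fun l hl hPW => ?_⟩, fun l hl h2 => ?_⟩
    · have hl2 : l ≠ 2 := fun h => od_two r (h ▸ hl)
      have hl' := Nat.mem_primeFactors.1 (mem_of_mem_erase hl)
      rw [PW_u2 hp2, ql_one] at hPW
      have h3 := h l hl'.1 hPW.1 hl2
      rw [pow_two_R r a ha hPW.1 hl'.2.1] at h3
      exact h3 hPW.2
    · have hl2 : l ≠ 2 := (mem_erase.1 hl).1
      have hl' : l ∈ (Sk 1 (p - 1)).filter (fun l => l ∉ od r ∧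
          PW (⊥ : Subgroup ℚˣ) (ql 1 l) p) := by
        refine Eq.mp ?_ (mem_erase.1 hl).2
        unfold Tp
        congr!
      rw [mem_filter] at hl'
      have hlS := hl'.1
      rw [mem_Sk hp1, ql_one] at hlS
      have hlr : ¬ l ∣ r := fun h4 => hl'.2.1
        (mem_erase.2 ⟨hl2, Nat.mem_primeFactors.2 ⟨hlS.1, h4, hr.ne'⟩⟩)
      have h3 := h l hlS.1 hlS.2 hl2
      rw [ql_one] at h2
      exact h3 ((h1 a ha l hlS.1 hlS.2 hlr).2 h2)
  · rintro ⟨⟨-, hR⟩, hT⟩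
    refine ⟨hne, fun l hlp hld hl2 h2 => ?_⟩
    have hlS : l ∈ Sk 1 (p - 1) := by
      rw [mem_Sk hp1, ql_one]
      exact ⟨hlp, hld⟩
    by_cases hlr : l ∣ r
    · refine hR l (mem_erase.2 ⟨hl2, Nat.mem_primeFactors.2 ⟨hlp, hlr, hr.ne'⟩⟩) ?_
      rw [PW_u2 hp2, ql_one]
      refine ⟨hld, ?_⟩
      rw [pow_two_R r a ha hld hlr] at h2
      exact h2
    · refine hT l ?_ ?_
      · rw [mem_erase]
        refine ⟨hl2, ?_⟩
        have h5 : l ∈ (Sk 1 (p - 1)).filter (fun l => l ∉ od r ∧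
            PW (⊥ : Subgroup ℚˣ) (ql 1 l) p) := by
          rw [mem_filter, PW_bot, ql_one]
          exact ⟨hlS, fun h4 => hlr (Nat.mem_primeFactors.1 (mem_of_mem_erase h4)).2.1, hld⟩
        refine Eq.mp ?_ h5
        unfold Tp
        congr!
      · rw [ql_one]
        exact (h1 a ha l hlp hld hlr).1 h2

open Classical in
/-- the local density -/
lemma GA_eq {p : ℕ} [Fact p.Prime] (R : Finset ℕ) (h2 : 2 ∉ R) (h3 : p % 4 = 3) :
    GA R p = if gd Q0 Set.univ (Subgroup.zpowers u2) 1 R p then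
      gT 1 ((Tp (⊥ : Subgroup ℚˣ) 1 R p).erase 2) else 0 := by
  have hp : p.Prime := Fact.out
  have hp1 : p - 1 ≠ 0 := (LC_pos (p := p)).ne'
  unfold GA GR
  rw [if_pos h3]
  simp only [hp, true_and]
  split_ifs with h
  · have hmem : 2 ∈ Tp (⊥ : Subgroup ℚˣ) 1 R p := by
      have h5 : 2 ∈ (Sk 1 (p - 1)).filter (fun l => l ∉ R ∧
          PW (⊥ : Subgroup ℚˣ) (ql 1 l) p) := by
        rw [mem_filter, PW_bot, ql_one, mem_Sk hp1, ql_one]
        exact ⟨⟨Nat.prime_two, by omega⟩, h2, by omega⟩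
      refine Eq.mp ?_ h5
      unfold Tp
      congr!
    unfold gT
    rw [← Finset.mul_prod_erase (Tp (⊥ : Subgroup ℚˣ) 1 R p) (fun l => 1 - 1 / (ql 1 l : ℝ)) hmem,
      ql_one]
    push_cast
    ring
  · simp

/-- a bound for the exceptional primes -/
noncomputable def P0 : ℕ := GF_triv.choose + 3

lemma GF_of {p : ℕ} (hp : p.Prime) (h : P0 ≤ p) : GF Q0 Set.univ p := by
  obtain ⟨hD, hT⟩ := GF_triv.choose_spec
  refine hT p hp fun h1 => ?_
  have := Nat.le_of_dvd hD h1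
  unfold P0 at h
  omega

/-- the counting problem -/
noncomputable def datA (r : ℕ+) : Dat where
  Q := fun p a => p % 4 = 3 ∧ Adm p (2 * a ^ (r : ℕ))
  G := GA (od r)
  A := artinC
  p0 := P0
  G0 := fun p => (GA_bounds _ p).1
  G1 := fun p => (GA_bounds _ p).2
  loc := by
    classical
    intro p hp hp0 E M L _ hE hM hG
    have : Fact p.Prime := ⟨hp⟩
    have hp3 : 3 ≤ p := le_trans (Nat.le_add_left _ _) hp0
    by_cases h3 : p % 4 = 3
    · obtain ⟨m, hm, h1⟩ := oddP_iff (p := p) (r : ℕ) r.pos (by omega) (GF_of hp hp0)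
      rw [GA_eq (od r) (od_two r) h3]
      have hE0 : (0 : ℝ) ≤ #E := Nat.cast_nonneg _
      have c5 : 0 ≤ (#E : ℝ) * hL L (p - 1) := mul_nonneg hE0 (hL_nn L p)
      by_cases hgd : gd Q0 Set.univ (Subgroup.zpowers u2) 1 (od r) p
      · have h := countT E M m 1 ((Tp (⊥ : Subgroup ℚˣ) 1 (od r) p).erase 2)
          ((erase_subset _ _).trans (Tp_sub (⊥ : Subgroup ℚˣ) 1 (od r) p)) hE hM hG hm L
        rw [if_pos hgd]
        have e2 : (E.filter (fun q : ℕ => p % 4 = 3 ∧ Adm p (2 * ((q : ℕ) : ZMod p) ^ (r : ℕ)))) =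
            (E.filter (fun q : ℕ => ∀ l ∈ (Tp (⊥ : Subgroup ℚˣ) 1 (od r) p).erase 2,
              (m * (q : ZMod p)) ^ ((p - 1) / ql 1 l) ≠ 1)) := by
          apply filter_congr
          intro q hq
          rw [adm_iff_oddP h3, h1 _ (hE q hq)]
          simp only [h3, hgd, true_and]
        suffices key : |((#(E.filter (fun q : ℕ => p % 4 = 3 ∧
              Adm p (2 * ((q : ℕ) : ZMod p) ^ (r : ℕ)))) : ℕ) : ℝ) -
              #E * gT 1 ((Tp (⊥ : Subgroup ℚˣ) 1 (od r) p).erase 2)| ≤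
            1 + 2 ^ L * M + 3 * (#E * hL L (p - 1)) + (p - 1).primeFactors.card * M by
          refine le_trans (le_of_eq ?_) key
          congr!
        rw [e2]
        refine le_trans (le_trans (le_of_eq ?_) h) ?_
        · congr!
        · linarith
      · rw [if_neg hgd, mul_zero, sub_zero]
        have e2 : ((#(E.filter (fun q : ℕ => p % 4 = 3 ∧
            Adm p (2 * ((q : ℕ) : ZMod p) ^ (r : ℕ)))) : ℕ) : ℝ) = 0 := by
          rw [filter_eq_empty_iff.2 (fun q hq hcon => hgd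
            ((h1 _ (hE q hq)).1 ((adm_iff_oddP h3 _).1 hcon.2)).1)]
          simp
        refine le_trans (le_of_eq ?_) (err_nn p E M L hM)
        rw [abs_eq_zero]
        refine Eq.trans ?_ e2
        congr!
    · have e1 : GA (od r) p = 0 := by
        unfold GA
        rw [if_neg h3]
      rw [e1, mul_zero, sub_zero]
      have e2 : ((#(E.filter (fun q : ℕ => p % 4 = 3 ∧
          Adm p (2 * ((q : ℕ) : ZMod p) ^ (r : ℕ)))) : ℕ) : ℝ) = 0 := by
        rw [filter_eq_empty_iff.2 (fun q hq hcon => h3 hcon.1)]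
        simp
      refine le_trans (le_of_eq ?_) (err_nn p E M L hM)
      rw [abs_eq_zero]
      refine Eq.trans ?_ e2
      congr!
  lim := by
    refine (GA_lim (od r) (fun l hl => od_prime hl) (od_two r)).congr fun x => ?_
    rw [M_eq]

lemma datA_Q (r : ℕ+) (p : ℕ) (a : ZMod p) :
    (datA r).Q p a ↔ p % 4 = 3 ∧ Adm p (2 * a ^ (r : ℕ)) := Iff.rfl

lemma GA_diff {R R0 : Finset ℕ} (hsub : R0 ⊆ R) (x : ℕ) :
    |sG (GA R) x - sG (GA R0) x| ≤
      2 * ∑ l ∈ R \ R0, ((Pool.Agent.H386R2.Artin.SH.A x l).card : ℝ) := by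
  classical
  unfold sG
  rw [← Finset.sum_sub_distrib]
  refine (Finset.abs_sum_le_sum_abs _ _).trans ?_
  have h1 : ∀ p ∈ PP x, |GA R p - GA R0 p| ≤
      2 * ∑ l ∈ R \ R0, (if l ∣ p - 1 then (1 : ℝ) else 0) := by
    intro p hp
    have hnn : 0 ≤ ∑ l ∈ R \ R0, (if l ∣ p - 1 then (1 : ℝ) else 0) :=
      Finset.sum_nonneg fun l _ => by split_ifs <;> norm_num
    by_cases h : ∀ l ∈ R, l ∉ R0 → ¬ l ∣ p - 1
    · have e : GA R p = GA R0 p := by
        unfold GA
        rw [GR_eq hsub (mem_PP.1 hp).2 h]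
      rw [e, sub_self, abs_zero]
      positivity
    · push Not at h
      obtain ⟨l, hl, hl0, hlp⟩ := h
      have h2 : (1 : ℝ) ≤ ∑ l ∈ R \ R0, (if l ∣ p - 1 then (1 : ℝ) else 0) := by
        have := Finset.single_le_sum (f := fun l : ℕ => (if l ∣ p - 1 then (1 : ℝ) else 0))
          (fun l _ => by split_ifs <;> norm_num) (Finset.mem_sdiff.2 ⟨hl, hl0⟩)
        simp only [if_pos hlp] at this
        exact this
      have h3 : |GA R p - GA R0 p| ≤ 2 := by
        obtain ⟨a1, a2⟩ := GA_bounds R p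
        obtain ⟨b1, b2⟩ := GA_bounds R0 p
        rw [abs_le]
        constructor <;> linarith
      linarith
  refine (Finset.sum_le_sum h1).trans ?_
  rw [← Finset.mul_sum, Finset.sum_comm]
  refine le_of_eq ?_
  congr 1
  refine Finset.sum_congr rfl fun l _ => ?_
  rw [← Finset.sum_filter, Finset.sum_const, nsmul_eq_mul, mul_one]
  rfl

open Classical in
/-- the mean of the local densities -/
theorem mean_A : ∃ C1 : ℝ, 0 < C1 ∧ ∀ (δ : ℝ) (L : ℕ) (ε : ℝ), 0 < ε → ∃ x0 : ℕ,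
    ∀ (N x : ℕ) (R : Finset ℕ), (∀ l ∈ R, l.Prime) → 2 ∉ R → (#R : ℝ) ≤ (N : ℝ) ^ (1 / 4 : ℝ) →
      ∑ l ∈ R.filter (fun l => L < l), (1 / (l : ℝ)) ≤ δ → x0 ≤ x → N ≤ x →
      |sG (GA R) x - artinC * (Nat.primeCounting x : ℝ)| ≤
        (C1 * δ + ε) * (Nat.primeCounting x : ℝ) := by
  obtain ⟨C1, hC1, hcount⟩ := count_S
  refine ⟨2 * C1, by positivity, fun δ L ε hε => ?_⟩
  obtain ⟨x1, hx1⟩ := hcount (ε / 4) (by positivity)
  -- the finitely many small parts
  have hfin : ∀ R0 : Finset ℕ, ∃ x2 : ℕ, (∀ l ∈ R0, l.Prime) → 2 ∉ R0 → ∀ x : ℕ, x2 ≤ x →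
      |sG (GA R0) x - artinC * (Nat.primeCounting x : ℝ)| ≤
        ε / 2 * (Nat.primeCounting x : ℝ) := by
    intro R0
    by_cases hR0 : (∀ l ∈ R0, l.Prime) ∧ 2 ∉ R0
    swap
    · exact ⟨0, fun h h' => absurd ⟨h, h'⟩ hR0⟩
    have h1 := GA_lim R0 hR0.1 hR0.2
    rw [Metric.tendsto_atTop] at h1
    obtain ⟨x2, hx2⟩ := h1 (ε / 2) (by positivity)
    have hπ : ∀ᶠ x : ℕ in atTop, (1 : ℝ) ≤ (Nat.primeCounting x : ℝ) :=
      (Filter.tendsto_atTop.mp (tendsto_natCast_atTop_atTop.comp Nat.tendsto_primeCounting) _)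
    obtain ⟨x3, hx3⟩ := eventually_atTop.1 hπ
    refine ⟨max x2 x3, fun _ _ x hx => ?_⟩
    have h4 := hx2 x ((le_max_left _ _).trans hx)
    have h5 := hx3 x ((le_max_right _ _).trans hx)
    have hP : (0 : ℝ) < (Nat.primeCounting x : ℝ) := lt_of_lt_of_le one_pos h5
    rw [Real.dist_eq, M_eq] at h4
    have h6 : sG (GA R0) x - artinC * (Nat.primeCounting x : ℝ) =
        ((∑ p ∈ PP x, GA R0 p) / (Nat.primeCounting x : ℝ) - artinC) *
          (Nat.primeCounting x : ℝ) := by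
      unfold sG
      field_simp
    rw [h6, abs_mul, abs_of_pos hP]
    exact mul_le_mul_of_nonneg_right h4.le hP.le
  choose X hX using hfin
  refine ⟨max x1 ((PP L).powerset.sup X), fun N x R hR hR2 hRN hRδ hx hNx => ?_⟩
  set R0 := R.filter (fun l => l ≤ L) with hR0
  have hsub : R0 ⊆ R := filter_subset _ _
  have hR0P : R0 ∈ (PP L).powerset := by
    rw [mem_powerset]
    intro l hl
    rw [hR0, mem_filter] at hl
    exact mem_PP.2 ⟨hl.2, hR l hl.1⟩
  have hx2 : X R0 ≤ x := (Finset.le_sup hR0P).trans ((le_max_right _ _).trans hx)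
  have k1 := hX R0 (fun l hl => hR l (hsub hl)) (fun h => hR2 (hsub h)) x hx2
  have k2 := GA_diff hsub x
  have hS : R \ R0 = R.filter (fun l => L < l) := by
    ext l
    rw [Finset.mem_sdiff, hR0, mem_filter, mem_filter]
    constructor
    · rintro ⟨h1, h2⟩
      exact ⟨h1, by
        by_contra hcon
        exact h2 ⟨h1, by omega⟩⟩
    · rintro ⟨h1, h2⟩
      exact ⟨h1, fun h3 => by omega⟩
  rw [hS] at k2
  have k3 := hx1 x ((le_max_left _ _).trans hx) (R.filter (fun l => L < l))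
    (fun l hl => hR l (mem_filter.1 hl).1) (by
      have h1 : (#(R.filter (fun l => L < l)) : ℝ) ≤ #R := by
        exact_mod_cast card_le_card (filter_subset _ _)
      refine h1.trans (hRN.trans ?_)
      have h2 : (N : ℝ) ≤ x := by exact_mod_cast hNx
      exact Real.rpow_le_rpow (Nat.cast_nonneg _) h2 (by norm_num))
  have hP : (0 : ℝ) ≤ (Nat.primeCounting x : ℝ) := Nat.cast_nonneg _
  have k4 : (C1 * ∑ l ∈ R.filter (fun l => L < l), (1 / (l : ℝ)) + ε / 4) *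
      (Nat.primeCounting x : ℝ) ≤ (C1 * δ + ε / 4) * (Nat.primeCounting x : ℝ) := by
    gcongr
  calc |sG (GA R) x - artinC * (Nat.primeCounting x : ℝ)|
      ≤ |sG (GA R) x - sG (GA R0) x| + |sG (GA R0) x - artinC * (Nat.primeCounting x : ℝ)| :=
        abs_sub_le _ _ _
    _ ≤ 2 * ((C1 * δ + ε / 4) * (Nat.primeCounting x : ℝ)) + ε / 2 * (Nat.primeCounting x : ℝ) := by
        linarith
    _ = (2 * C1 * δ + ε) * (Nat.primeCounting x : ℝ) := by ring

end Pool.Agent.W54.AD
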