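import Pool.Agent.W171.LG.Two

/-! # The degrees of the fields of roots of two, level divisible by four -/

set_option autoImplicit false

namespace Pool.Agent.W54.AD

open IntermediateField NumberField
open Pool.Agent.W171.LG

section ram
variable {K : Type} [Field K] [NumberField K]

/-- no roots in fields with small ramification at `p` -/
lemma no_root_e {p r t e : ℕ} (hp : p.Prime) (hr0 : 0 < r) (P : Ideal (𝓞 K)) [hP : P.IsPrime]
    [hl : P.LiesOver (Ideal.span {(p : ℤ)})] (hram : Ideal.ramificationIdx P ℤ = e) {u : ℤ}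
    (h1 : (p : ℤ) ^ t ∣ u) (h2 : ¬ (p : ℤ) ^ (t + 1) ∣ u) (hr : ¬ r ∣ e * t) (b : K) :
    b ^ r ≠ (u : K) := by
  intro hb
  have hu0 : u ≠ 0 := by
    rintro rfl
    exact h2 (dvd_zero _)
  have hint : IsIntegral ℤ b := by
    refine IsIntegral.of_pow hr0 ?_
    rw [hb]
    exact isIntegral_algebraMap (R := ℤ) (A := K) (x := u)
  obtain ⟨c, hc⟩ : ∃ c : 𝓞 K, (c : K) = b := ⟨⟨b, hint⟩, rfl⟩
  have hcu : algebraMap ℤ (𝓞 K) u = c ^ r := by
    apply RingOfIntegers.coe_injective
    rw [map_pow]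
    change _ = (c : K) ^ r
    rw [hc, hb]
    simp
  have hpi : Prime (p : ℤ) := Nat.prime_iff_prime_int.1 hp
  have hbot : Ideal.span {(p : ℤ)} ≠ ⊥ := by
    rw [Ne, Ideal.span_singleton_eq_bot]
    exact hpi.ne_zero
  have hsp : Prime (Ideal.span {(p : ℤ)}) :=
    Ideal.prime_of_isPrime hbot ((Ideal.span_singleton_prime hpi.ne_zero).2 hpi)
  have hPb : P ≠ ⊥ := Ideal.ne_bot_of_liesOver_of_ne_bot hbot P
  have hPp : Prime P := Ideal.prime_of_isPrime hPb hP
  have hub : Ideal.span {u} ≠ ⊥ := by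
    rw [Ne, Ideal.span_singleton_eq_bot]
    exact hu0
  have e1 := Ideal.IsDedekindDomain.emultiplicity_map_eq_ramificationIdx'_mul (S := 𝓞 K) hub hsp.irreducible
    hPp.irreducible hPb
  rw [Ideal.ramificationIdx'_eq_ramificationIdx _ _ hbot, hram,
    Ideal.map_span, Set.image_singleton, hcu, ← Ideal.span_singleton_pow, emultiplicity_pow hPp] at e1
  have e2 : emultiplicity (Ideal.span {(p : ℤ)}) (Ideal.span {u}) = t := by
    rw [emultiplicity_eq_coe]
    rw [Ideal.span_singleton_pow, Ideal.span_singleton_pow, Ideal.dvd_iff_le, Ideal.dvd_iff_le,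
      Ideal.span_singleton_le_span_singleton, Ideal.span_singleton_le_span_singleton]
    exact ⟨h1, h2⟩
  rw [e2] at e1
  have hfin : emultiplicity P (Ideal.span {c}) ≠ ⊤ := by
    intro h
    rw [h, ENat.mul_top (by exact_mod_cast hr0.ne')] at e1
    exact ENat.top_ne_natCast (e * t) (by rw [e1]; push_cast; rfl)
  obtain ⟨s, hs⟩ := ENat.ne_top_iff_exists.1 hfin
  rw [← hs] at e1
  have e3 : r * s = e * t := by exact_mod_cast e1
  exact hr ⟨s, e3.symm⟩

/-- `2` is not an odd power in the cyclotomic fields of level `4 m`, `m` odd -/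
lemma cyc_no_root4 {m : ℕ} (hm : Odd m) [IsCyclotomicExtension {4 * m} ℚ K] {r : ℕ}
    (hr : 1 < r) (hro : Odd r) (b : K) : b ^ r ≠ ((2 : ℤ) : K) := by
  have h2 : Nat.Prime 2 := Nat.prime_two
  have : Fact (Nat.Prime 2) := ⟨h2⟩
  obtain ⟨P, hP, hl⟩ := exists_over (K := K) h2
  have hm' : 4 * m = 2 ^ (1 + 1) * m := by ring
  have hm2 : ¬ 2 ∣ m := by
    intro h
    rw [← even_iff_two_dvd] at h
    exact (Nat.not_even_iff_odd.2 hm) h
  have hram : Ideal.ramificationIdx P ℤ = 2 := by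
    have := IsCyclotomicExtension.Rat.ramificationIdx_eq (4 * m) K P hm' hm2
    simpa using this
  refine no_root_e (t := 1) h2 (by omega) P hram (by norm_num) (by norm_num) ?_ b
  intro h
  rw [mul_one] at h
  have h3 := (Nat.dvd_prime h2).1 h
  rcases h3 with h3 | h3
  · omega
  · rw [h3] at hro
    exact absurd hro (by decide)

end ram

/-- degrees of the fields of roots of `2`, level divisible by four -/
theorem finrank_two4 (u : ℚˣ) (hu : (u : ℚ) = 2) {a b : ℕ} (ha : 0 < a) (hb : 0 < b)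
    (hcop : Nat.Coprime a b) (hao : Odd a) (hbo : Odd b) :
    Module.finrank ℚ (Kf (⊥ : IntermediateField ℚ QA) (Subgroup.zpowers u) ⊥ a (4 * b)) =
      a * Nat.totient (4 * (a * b)) := by
  have hb4 : 0 < 4 * b := by omega
  have hcop4 : Nat.Coprime a (4 * b) := by
    apply Nat.Coprime.mul_right _ hcop
    have : Nat.Coprime a (2 ^ 2) := Nat.Coprime.pow_right 2 (Nat.coprime_two_right.2 hao)
    exact this
  have hn0 : a * (4 * b) ≠ 0 := by positivity
  have : NeZero (a * (4 * b)) := ⟨hn0⟩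
  obtain ⟨ζ, hζ⟩ := HasEnoughRootsOfUnity.exists_primitiveRoot QA (a * (4 * b))
  obtain ⟨α, hα⟩ := IsAlgClosed.exists_pow_nat_eq (algebraMap ℚ QA (u : ℚ)) ha
  unfold Kf
  rw [bot_sup_eq, Lf_zpowers u ha hb4 hcop4 hζ hα]
  set K0 : IntermediateField ℚ QA := adjoin ℚ {ζ} with hK0
  have hcyc : IsCyclotomicExtension {a * (4 * b)} ℚ K0 :=
    (IntermediateField.isCyclotomicExtension_singleton_iff_eq_adjoin (a * (4 * b)) ℚ QA K0 hζ).2 rfl
  have hfin : FiniteDimensional ℚ K0 := IsCyclotomicExtension.finite_of_singleton (a * (4 * b)) ℚ K0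
  have : NumberField K0 := { to_charZero := inferInstance, to_finiteDimensional := hfin }
  have hdeg : Module.finrank ℚ K0 = Nat.totient (a * (4 * b)) :=
    IsCyclotomicExtension.finrank (n := a * (4 * b)) K0
      (Polynomial.cyclotomic.irreducible_rat (Nat.pos_of_ne_zero hn0))
  have hζ' : IsPrimitiveRoot (⟨ζ, mem_adjoin_simple_self ℚ ζ⟩ : K0) (a * (4 * b)) := by
    refine IsPrimitiveRoot.of_map_of_injective (f := K0.val) ?_ K0.val.injective
    exact hζ
  have hζa : IsPrimitiveRoot ((⟨ζ, mem_adjoin_simple_self ℚ ζ⟩ : K0) ^ (4 * b)) a :=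
    hζ'.pow (Nat.pos_of_ne_zero hn0) (mul_comm a (4 * b))
  have e4 : a * (4 * b) = 4 * (a * b) := by ring
  have hcyc' : IsCyclotomicExtension {4 * (a * b)} ℚ K0 := by
    rw [← e4]
    exact hcyc
  have key := finrank_radical K0 ha hζa u.ne_zero hα (fun r hr hra c hc => by
    refine cyc_no_root4 (K := K0) (hao.mul hbo) hr.one_lt (Odd.of_dvd_nat hao hra) c ?_
    rw [hc, hu]
    simp)
  rw [key, mul_comm, hdeg, e4]

end Pool.Agent.W54.AD
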