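import Pool.Agent.W54.AD.Field
import Pool.Agent.W171.LG.MeanU
import Pool.Agent.H771R4.SE.Odd

/-! # The mean of the local densities over the primes `p ≡ 3 mod 4` -/

set_option autoImplicit false
set_option linter.unusedSectionVars false

namespace Pool.Agent.W54.AD

open NumberField Filter Topology Finset
open Pool.Agent.W401.Cheb
open Pool.Agent.H386R2.Artin (PP Good hL LC_pos artinL artinC artinLim)
open Pool.Agent.H771R4.SE (Dat)
open Pool.Agent.H981R3.LN (ql Sk mem_Sk mem_PP Sk_dvd Sk_prime prod_ql_pos)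
open Pool.Agent.W171.LG
open Pool.Agent.W171.EP (sG card_PP mem_PP')

lemma prod_odd {J : Finset ℕ} (hJ : ∀ l ∈ J, l.Prime) (h2 : 2 ∉ J) : Odd (∏ l ∈ J, l) := by
  rw [← Nat.not_even_iff_odd, even_iff_two_dvd, Prime.dvd_finsetProd_iff Nat.prime_two.prime]
  rintro ⟨l, hl, h⟩
  rw [Nat.prime_dvd_prime_iff_eq Nat.prime_two (hJ l hl)] at h
  exact h2 (h ▸ hl)

lemma lcm_four {K : Finset ℕ} (hK : ∀ l ∈ K, l.Prime) :
    Nat.lcm (∏ l ∈ K, l) 4 = 4 * ∏ l ∈ K.erase 2, l := by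
  have hodd : Nat.Coprime (∏ l ∈ K.erase 2, l) 4 := by
    have h1 : Odd (∏ l ∈ K.erase 2, l) :=
      prod_odd (fun l hl => hK l (mem_of_mem_erase hl)) (notMem_erase 2 K)
    exact Nat.Coprime.pow_right 2 (Nat.coprime_two_right.2 h1)
  by_cases h2 : 2 ∈ K
  · rw [← Finset.mul_prod_erase K (fun l => l) h2]
    apply Nat.dvd_antisymm
    · apply Nat.lcm_dvd
      · exact mul_dvd_mul (by norm_num) dvd_rfl
      · exact dvd_mul_right _ _
    · apply Nat.Coprime.mul_dvd_of_dvd_of_dvd hodd.symm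
      · exact Nat.dvd_lcm_right _ _
      · exact (dvd_mul_left _ _).trans (Nat.dvd_lcm_left _ _)
  · rw [Finset.erase_eq_of_notMem h2] at hodd ⊢
    rw [hodd.lcm_eq_mul, mul_comm]

lemma tot_prod {S : Finset ℕ} (hS : ∀ l ∈ S, l.Prime) :
    ((Nat.totient (∏ l ∈ S, l) : ℕ) : ℝ) = ∏ l ∈ S, ((l : ℝ) - 1) := by
  induction S using Finset.induction_on with
  | empty => simp
  | insert l S hl ih =>
    rw [Finset.prod_insert hl, Finset.prod_insert hl, Nat.totient_mul]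
    · push_cast
      rw [ih fun x hx => hS x (mem_insert_of_mem hx), Nat.totient_prime (hS l (mem_insert_self _ _)),
        Nat.cast_sub (hS l (mem_insert_self _ _)).one_lt.le]
      simp
    · apply Nat.Coprime.prod_right
      intro x hx
      rw [Nat.coprime_primes (hS l (mem_insert_self _ _)) (hS x (mem_insert_of_mem hx))]
      rintro rfl
      exact hl hx

/-- the density with the additional condition `4 ∣ p - 1` is half of the density -/
lemma dn_four (J K : Finset ℕ) (hJ : ∀ l ∈ J, l.Prime) (hK : ∀ l ∈ K, l.Prime)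
    (hd : Disjoint J K) (h2 : 2 ∉ J) :
    (cE Q0 Set.univ (Lf QA (Subgroup.zpowers u2) (∏ l ∈ J, ql 1 l) ⊔
        Lf QA ⊥ (Nat.lcm (∏ l ∈ K, ql 1 l) 4)) : ℝ) /
      (Module.finrank ℚ (Kf Q0 (Subgroup.zpowers u2) ⊥ (∏ l ∈ J, ql 1 l)
        (Nat.lcm (∏ l ∈ K, ql 1 l) 4)) : ℝ) =
      dn Q0 Set.univ (Subgroup.zpowers u2) ⊥ 1 J K / 2 := by
  rw [dn_two J K hJ hK hd, cE_triv]
  have eJ : ∏ l ∈ J, ql 1 l = ∏ l ∈ J, l := Finset.prod_congr rfl fun l _ => ql_one l
  have eK : ∏ l ∈ K, ql 1 l = ∏ l ∈ K, l := Finset.prod_congr rfl fun l _ => ql_one l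
  have hK' : ∀ l ∈ K.erase 2, l.Prime := fun l hl => hK l (mem_of_mem_erase hl)
  have hd' : Disjoint J (K.erase 2) := Finset.disjoint_of_subset_right (erase_subset _ _) hd
  have hu : ∀ l ∈ J ∪ K.erase 2, l.Prime := fun l hl => by
    rw [mem_union] at hl
    exact hl.elim (hJ l) (hK' l)
  have h2u : 2 ∉ J ∪ K.erase 2 := by
    rw [mem_union, not_or]
    exact ⟨h2, notMem_erase _ _⟩
  have hcop : Nat.Coprime (∏ l ∈ J, l) (∏ l ∈ K.erase 2, l) := by
    apply Nat.Coprime.prod_left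
    intro a ha
    apply Nat.Coprime.prod_right
    intro b hb
    rw [Nat.coprime_primes (hJ a ha) (hK' b hb)]
    rintro rfl
    exact Finset.disjoint_left.1 hd' ha hb
  have hdeg : Module.finrank ℚ (Kf Q0 (Subgroup.zpowers u2) ⊥ (∏ l ∈ J, ql 1 l)
      (Nat.lcm (∏ l ∈ K, ql 1 l) 4)) =
      (∏ l ∈ J, l) * Nat.totient (4 * ((∏ l ∈ J, l) * ∏ l ∈ K.erase 2, l)) := by
    rw [eJ, eK, lcm_four hK]
    exact finrank_two4 u2 rfl (Finset.prod_pos fun l hl => (hJ l hl).pos)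
      (Finset.prod_pos fun l hl => (hK' l hl).pos) hcop (prod_odd hJ h2)
      (prod_odd hK' (notMem_erase _ _))
  rw [hdeg]
  have ht : Nat.totient (4 * ((∏ l ∈ J, l) * ∏ l ∈ K.erase 2, l)) =
      2 * Nat.totient (∏ l ∈ J ∪ K.erase 2, l) := by
    rw [← Finset.prod_union hd', Nat.totient_mul]
    · rfl
    · exact Nat.Coprime.pow_left 2 (Nat.coprime_two_left.2 (prod_odd hu h2u))
  rw [ht]
  push_cast
  rw [tot_prod hu, Finset.prod_union hd']
  have e5 : ∏ l ∈ K, (1 / ((l : ℝ) - 1)) = ∏ l ∈ K.erase 2, (1 / ((l : ℝ) - 1)) := by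
    by_cases h : 2 ∈ K
    · rw [← Finset.mul_prod_erase K (fun l : ℕ => 1 / ((l : ℝ) - 1)) h]
      norm_num
    · rw [Finset.erase_eq_of_notMem h]
  rw [e5, Finset.prod_div_distrib, Finset.prod_div_distrib, Finset.prod_const_one,
    Finset.prod_const_one, Finset.prod_mul_distrib, div_mul_div_comm]
  rw [div_div]
  congr 1
  · norm_num
  · ring

open Classical in
/-- the truncated averages with the additional condition `4 ∣ p - 1` -/
lemma avg_four (R : Finset ℕ) (hR : ∀ l ∈ R, l.Prime) (h2 : 2 ∉ R) (L : ℕ) :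
    Tendsto (M fun p => if gd Q0 Set.univ (Subgroup.zpowers u2) 1 R p ∧ 4 ∣ p - 1 then
      gT 1 ((Tp (⊥ : Subgroup ℚˣ) 1 R p).filter (fun l => l ≤ L)) else 0)
      atTop (𝓝 (dLr Q0 Set.univ (Subgroup.zpowers u2) ⊥ 1 R L / 2)) := by
  have hW1 : (Subgroup.zpowers u2).FG := ⟨{u2}, by simp [Subgroup.zpowers_eq_closure]⟩
  have hW0 : (⊥ : Subgroup ℚˣ).FG := ⟨∅, by simp⟩
  obtain ⟨D1, hD1, hU1⟩ := exists_unW hW1
  obtain ⟨D0, hD0, hU0⟩ := exists_unW hW0
  obtain ⟨D3, hD3, hT3⟩ := GF_triv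
  refine M_congr (D := D1 * D0 * D3) (by positivity) (b := fun p =>
    ∑ K ∈ (PP L).powerset.filter (fun K => Disjoint K R),
      (-1 : ℝ) ^ #K * (1 / ((∏ l ∈ K, ql 1 l : ℕ) : ℝ)) *
        ∑ J ∈ R.powerset, (-1 : ℝ) ^ #J *
          (if GF Q0 Set.univ p ∧ PW (Subgroup.zpowers u2) (∏ l ∈ J, ql 1 l) p ∧
            PW ⊥ (Nat.lcm (∏ l ∈ K, ql 1 l) 4) p then 1 else 0)) ?_ ?_
  · intro p hp hpD
    have : Fact p.Prime := ⟨hp⟩
    have hGF : GF Q0 Set.univ p := hT3 p hp fun h => hpD (Dvd.dvd.mul_left h _)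
    have key := pointwise Q0 Set.univ (Subgroup.zpowers u2) ⊥ 1 R hR L (p := p)
      (hU1 p fun h => hpD (Dvd.dvd.mul_right (Dvd.dvd.mul_right h _) _))
      (hU0 p fun h => hpD (Dvd.dvd.mul_right (Dvd.dvd.mul_left h _) _))
    by_cases h4 : 4 ∣ p - 1
    · have e1 : (if gd Q0 Set.univ (Subgroup.zpowers u2) 1 R p ∧ 4 ∣ p - 1 then
          gT 1 ((Tp (⊥ : Subgroup ℚˣ) 1 R p).filter (fun l => l ≤ L)) else 0) =
          (if gd Q0 Set.univ (Subgroup.zpowers u2) 1 R p then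
          gT 1 ((Tp (⊥ : Subgroup ℚˣ) 1 R p).filter (fun l => l ≤ L)) else 0) := by
        simp only [h4, and_true]
      rw [e1, key]
      refine Finset.sum_congr rfl fun K _ => ?_
      congr 1
      refine Finset.sum_congr rfl fun J _ => ?_
      congr 1
      have e2 : PW (⊥ : Subgroup ℚˣ) (∏ l ∈ K, ql 1 l) p ↔
          PW (⊥ : Subgroup ℚˣ) (Nat.lcm (∏ l ∈ K, ql 1 l) 4) p := by
        rw [PW_bot, PW_bot, Nat.lcm_dvd_iff]
        exact ⟨fun h => ⟨h, h4⟩, fun h => h.1⟩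
      simp only [e2]
    · rw [if_neg (fun h => h4 h.2)]
      symm
      refine Finset.sum_eq_zero fun K _ => ?_
      rw [Finset.sum_eq_zero, mul_zero]
      intro J _
      rw [if_neg, mul_zero]
      rintro ⟨-, -, h⟩
      rw [PW_bot, Nat.lcm_dvd_iff] at h
      exact h4 h.2
  · simp_rw [funext (M_sum _ _)]
    unfold dLr
    rw [Finset.sum_div]
    apply tendsto_finsetSum
    intro K hK
    rw [mem_filter, mem_powerset] at hK
    simp_rw [funext (M_smul _ _)]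
    rw [mul_div_assoc]
    apply Tendsto.const_mul
    simp_rw [funext (M_sum _ _)]
    rw [Finset.sum_div]
    apply tendsto_finsetSum
    intro J hJ
    rw [mem_powerset] at hJ
    simp_rw [funext (M_smul _ _)]
    rw [mul_div_assoc]
    apply Tendsto.const_mul
    have hJp : ∀ l ∈ J, l.Prime := fun l hl => hR l (hJ hl)
    have hKp : ∀ l ∈ K, l.Prime := fun l hl => (mem_PP.1 (hK.1 hl)).2
    rw [← dn_four J K hJp hKp (Finset.disjoint_of_subset_left hJ hK.2.symm) (fun h => h2 (hJ h))]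
    exact dens Q0 Set.univ (fun _ _ _ => Set.mem_univ _) (Subgroup.zpowers u2) ⊥ _ _ hW1 hW0
      (prod_ql_pos hJp) (Nat.lcm_pos (prod_ql_pos hKp) (by norm_num))

open Classical in
/-- the average with the additional condition `4 ∣ p - 1` -/
lemma lim_four (R : Finset ℕ) (hR : ∀ l ∈ R, l.Prime) (h2 : 2 ∉ R) :
    Tendsto (M fun p => if gd Q0 Set.univ (Subgroup.zpowers u2) 1 R p ∧ 4 ∣ p - 1 then
      gT 1 (Tp (⊥ : Subgroup ℚˣ) 1 R p) else 0) atTop (𝓝 (artinC / 2)) := by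
  have h5 : Tendsto (fun L => dLr Q0 Set.univ (Subgroup.zpowers u2) ⊥ 1 R L / 2) atTop
      (𝓝 (artinC / 2)) := by
    refine (artinLim.div_const 2).congr' ?_
    filter_upwards [eventually_ge_atTop (R.sup id)] with L hL
    rw [dLr_two R hR L fun l hl => (Finset.le_sup (f := id) hl).trans hL]
  have key := lim_of 1 (fun p => gd Q0 Set.univ (Subgroup.zpowers u2) 1 R p ∧ 4 ∣ p - 1) _
    (fun p _ => Tp_sub (⊥ : Subgroup ℚˣ) 1 R p)
    (fun L => dLr Q0 Set.univ (Subgroup.zpowers u2) ⊥ 1 R L / 2) (artinC / 2)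
    (fun L => by convert avg_four R hR h2 L) h5
  convert key

/-- local densities -/
noncomputable def GA (R : Finset ℕ) (p : ℕ) : ℝ := if p % 4 = 3 then 2 * GR R p else 0

lemma GA_bounds (R : Finset ℕ) (p : ℕ) : 0 ≤ GA R p ∧ GA R p ≤ 2 := by
  obtain ⟨h1, h2⟩ := GR_bounds R p
  unfold GA
  split_ifs
  · constructor <;> linarith
  · norm_num

lemma GA_lim (R : Finset ℕ) (hR : ∀ l ∈ R, l.Prime) (h2 : 2 ∉ R) :
    Tendsto (M (GA R)) atTop (𝓝 artinC) := by
  classical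
  have a1 := lim_two R hR
  have a2 := lim_four R hR h2
  have h := (a1.sub a2).const_mul 2
  have e0 : 2 * (artinC - artinC / 2) = artinC := by ring
  rw [e0] at h
  refine M_congr (D := 2) (by norm_num) (b := fun p => 2 *
    ((if gd Q0 Set.univ (Subgroup.zpowers u2) 1 R p then gT 1 (Tp (⊥ : Subgroup ℚˣ) 1 R p) else 0) -
      (if gd Q0 Set.univ (Subgroup.zpowers u2) 1 R p ∧ 4 ∣ p - 1 then
        gT 1 (Tp (⊥ : Subgroup ℚˣ) 1 R p) else 0))) ?_ ?_
  · intro p hp hpD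
    have hp2 : p ≠ 2 := by
      rintro rfl
      exact hpD dvd_rfl
    have hodd := hp.eq_two_or_odd.resolve_left hp2
    unfold GA GR
    simp only [hp, true_and]
    by_cases h3 : p % 4 = 3
    · have h4 : ¬ 4 ∣ p - 1 := by omega
      rw [if_pos h3]
      simp only [h4, and_false, if_false, sub_zero]
    · have h4 : 4 ∣ p - 1 := by omega
      rw [if_neg h3]
      simp only [h4, and_true, sub_self, mul_zero]
  · refine h.congr fun x => ?_
    rw [M_smul]
    congr 1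
    rw [M_eq, M_eq, M_eq, ← sub_div, ← Finset.sum_sub_distrib]

end Pool.Agent.W54.AD
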